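import Pool.Agent.Helper40.Nil.Stmts3

set_option autoImplicit false

namespace Pool.Agent.Helper40.Nil

open scoped WithZero Valued

noncomputable section

/-- the power series over the field are the valuation ring -/
def lser_equiv (K : Type) [Field K] :
    PowerSeries K ≃+* (Valued.v : Valuation (LaurentSeries K) ℤᵐ⁰).integer :=
  RingEquiv.ofBijective
    ((HahnSeries.ofPowerSeries ℤ K).codRestrict
      (Valued.v : Valuation (LaurentSeries K) ℤᵐ⁰).integer
      (fun F => (LaurentSeries.val_le_one_iff_eq_coe K _).2 ⟨F, rfl⟩))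
    ⟨fun a b h => HahnSeries.ofPowerSeries_injective (congrArg Subtype.val h),
      fun f => by
        obtain ⟨F, hF⟩ := (LaurentSeries.val_le_one_iff_eq_coe K _).1 f.2
        exact ⟨F, Subtype.ext hF⟩⟩

theorem lser_nontrivial (K : Type) [Field K] :
    (Valued.v : Valuation (LaurentSeries K) ℤᵐ⁰).IsNontrivial := by
  refine ⟨HahnSeries.single (1 : ℤ) (1 : K), ?_, ?_⟩
  · rw [LaurentSeries.valuation_single_zpow]
    exact WithZero.exp_ne_zero
  · rw [LaurentSeries.valuation_single_zpow]
    intro h
    rw [← WithZero.exp_zero, WithZero.exp_inj] at h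
    norm_num at h

theorem lser_rankOne (K : Type) [Field K] :
    Nonempty (Valued.v : Valuation (LaurentSeries K) ℤᵐ⁰).RankOne := by
  haveI := lser_nontrivial K
  rw [Valuation.nonempty_rankOne_iff_mulArchimedean]
  exact MulArchimedean.comap MonoidWithZeroHom.ValueGroup₀.embedding.toMonoidHom
    MonoidWithZeroHom.ValueGroup₀.embedding_strictMono

theorem lser_dvr (K : Type) [Field K] :
    IsDiscreteValuationRing (Valued.v : Valuation (LaurentSeries K) ℤᵐ⁰).integer :=
  IsDiscreteValuationRing.RingEquivClass.isDiscreteValuationRing (lser_equiv K)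

theorem lser_fin (p : ℕ) [Fact p.Prime]
    [IsLocalRing (Valued.v : Valuation (LaurentSeries (ZMod p)) ℤᵐ⁰).integer] :
    Finite (IsLocalRing.ResidueField
      (Valued.v : Valuation (LaurentSeries (ZMod p)) ℤᵐ⁰).integer) :=
  Finite.of_equiv (ZMod p) ((PowerSeries.residueFieldOfPowerSeries (k := ZMod p)).symm.trans
    (IsLocalRing.ResidueField.mapEquiv (lser_equiv (ZMod p)))).toEquiv

theorem st_LSER : ST_LSER := by
  intro p _
  obtain ⟨hR⟩ := lser_rankOne (ZMod p)
  letI := hR
  haveI hdvr := lser_dvr (ZMod p)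
  letI hN : NontriviallyNormedField (LaurentSeries (ZMod p)) :=
    Valued.toNontriviallyNormedField (LaurentSeries (ZMod p)) ℤᵐ⁰
  have hU : IsUltrametricDist (LaurentSeries (ZMod p)) := inferInstance
  have hC : CompleteSpace (LaurentSeries (ZMod p)) := LaurentSeries.instLaurentSeriesComplete
  have hP : ProperSpace (LaurentSeries (ZMod p)) :=
    Valued.integer.properSpace_iff_completeSpace_and_isDiscreteValuationRing_integer_and_finite_residueField.2
      ⟨hC, hdvr, lser_fin p⟩
  refine ⟨LaurentSeries (ZMod p), hN, hP, hU, ?_, ?_⟩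
  · exact charP_of_injective_ringHom (HahnSeries.C_injective (Γ := ℤ) (R := ZMod p)) p
  · have h := continuum_le_cardinal_of_nontriviallyNormedField (LaurentSeries (ZMod p))
    rw [← Cardinal.aleph0_lt_mk_iff]
    exact Cardinal.aleph0_lt_continuum.trans_le h

end

end Pool.Agent.Helper40.Nil
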