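import Pool.Agent.Helper40.Nil.Stmts2

set_option autoImplicit false

namespace Pool.Agent.Helper40.Nil

open scoped ComplexOrder

/-- the powers of a hermitian matrix -/
theorem nckm_spec {k : ℕ} (W : Matrix (Fin k) (Fin k) ℂ) (hW : W.IsHermitian) :
    ∃ (U : Matrix (Fin k) (Fin k) ℂ) (l : Fin k → ℝ), ∀ q : ℕ,
      W ^ q = U * Matrix.diagonal (fun i => ((l i ^ q : ℝ) : ℂ)) * star U := by
  refine ⟨(hW.eigenvectorUnitary : Matrix (Fin k) (Fin k) ℂ), hW.eigenvalues, fun q => ?_⟩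
  have h := hW.spectral_theorem
  have h2 : W ^ q = Unitary.conjStarAlgAut ℂ _ hW.eigenvectorUnitary
      ((Matrix.diagonal (RCLike.ofReal ∘ hW.eigenvalues)) ^ q) := by
    rw [map_pow, ← h]
  rw [h2, Unitary.conjStarAlgAut_apply, Matrix.diagonal_pow]
  congr 3
  funext i
  simp

theorem nckm_tr {k : ℕ} (K : Matrix (Fin k) (Fin k) ℂ) (a b : Fin k → ℝ) :
    (star K * Matrix.diagonal (fun i => ((a i : ℝ) : ℂ)) * K *
      Matrix.diagonal (fun i => ((b i : ℝ) : ℂ))).trace =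
      ∑ i, ∑ j, ((a i * b j * Complex.normSq (K i j) : ℝ) : ℂ) := by
  rw [Matrix.trace]
  simp only [Matrix.diag_apply, Matrix.mul_apply, Matrix.diagonal_apply, mul_ite, mul_zero,
    Finset.sum_ite_eq', Finset.mem_univ, if_true, Finset.sum_mul]
  rw [Finset.sum_comm]
  refine Finset.sum_congr rfl fun i _ => Finset.sum_congr rfl fun j _ => ?_
  rw [Matrix.star_apply]
  push_cast
  rw [Complex.normSq_eq_conj_mul_self]
  simp only [RCLike.star_def]
  ring

theorem nckm_HH {k : ℕ} (H W Y : Matrix (Fin k) (Fin k) ℂ) (hH : H.IsHermitian)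
    (hW : W.IsHermitian) (hY : Y.IsHermitian) :
    ∃ (l m : Fin k → ℝ) (w : Fin k → Fin k → ℝ), (∀ i j, 0 ≤ w i j) ∧
      ∀ q r : ℕ, (H * W ^ q * H * Y ^ r).trace.re = ∑ i, ∑ j, l i ^ q * m j ^ r * w i j := by
  obtain ⟨U, l, hU⟩ := nckm_spec W hW
  obtain ⟨V, m, hV⟩ := nckm_spec Y hY
  refine ⟨l, m, fun i j => Complex.normSq ((star U * H * V) i j), fun i j =>
    Complex.normSq_nonneg _, fun q r => ?_⟩
  have hH' : star H = H := hH
  have e : (H * W ^ q * H * Y ^ r).trace = (star (star U * H * V) *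
      Matrix.diagonal (fun i => ((l i ^ q : ℝ) : ℂ)) * (star U * H * V) *
      Matrix.diagonal (fun i => ((m i ^ r : ℝ) : ℂ))).trace := by
    rw [hU q, hV r]
    have e1 : H * (U * Matrix.diagonal (fun i => ((l i ^ q : ℝ) : ℂ)) * star U) * H *
        (V * Matrix.diagonal (fun i => ((m i ^ r : ℝ) : ℂ)) * star V) =
        (H * U * Matrix.diagonal (fun i => ((l i ^ q : ℝ) : ℂ)) * (star U * H * V) *
          Matrix.diagonal (fun i => ((m i ^ r : ℝ) : ℂ))) * star V := by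
      simp only [mul_assoc]
    rw [e1, Matrix.trace_mul_comm]
    congr 1
    rw [star_mul, star_mul, star_star, hH']
    simp only [mul_assoc]
  rw [e, nckm_tr, Complex.re_sum]
  refine Finset.sum_congr rfl fun i _ => ?_
  rw [Complex.re_sum]
  refine Finset.sum_congr rfl fun j _ => ?_
  rw [Complex.ofReal_re]

theorem nckm_scalar (l m : ℝ) (n : ℕ) :
    ∑ q ∈ Finset.range (2 * n + 1), l ^ q * m ^ (2 * n - q) ≤
      ((2 * n + 1 : ℕ) : ℝ) / 2 * (l ^ (2 * n) + m ^ (2 * n)) := by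
  have h1 : ∑ q ∈ Finset.range (2 * n + 1), l ^ q * m ^ (2 * n - q) =
      ∑ q ∈ Finset.range (2 * n + 1), l ^ (2 * n - q) * m ^ q := by
    rw [← Finset.sum_range_reflect]
    refine Finset.sum_congr rfl fun q hq => ?_
    rw [Finset.mem_range] at hq
    have e1 : 2 * n + 1 - 1 - q = 2 * n - q := by omega
    have e2 : 2 * n - (2 * n - q) = q := by omega
    rw [e1, e2]
  have h2 : ∀ q ∈ Finset.range (2 * n + 1),
      l ^ q * m ^ (2 * n - q) + l ^ (2 * n - q) * m ^ q ≤ l ^ (2 * n) + m ^ (2 * n) := by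
    intro q hq
    rw [Finset.mem_range] at hq
    have e1 : l ^ (2 * n) = |l| ^ q * |l| ^ (2 * n - q) := by
      rw [← pow_add, show q + (2 * n - q) = 2 * n by omega, pow_mul, pow_mul, sq_abs]
    have e2 : m ^ (2 * n) = |m| ^ q * |m| ^ (2 * n - q) := by
      rw [← pow_add, show q + (2 * n - q) = 2 * n by omega, pow_mul, pow_mul, sq_abs]
    have e3 : l ^ q * m ^ (2 * n - q) ≤ |l| ^ q * |m| ^ (2 * n - q) := by
      rw [← abs_pow, ← abs_pow, ← abs_mul]; exact le_abs_self _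
    have e4 : l ^ (2 * n - q) * m ^ q ≤ |l| ^ (2 * n - q) * |m| ^ q := by
      rw [← abs_pow, ← abs_pow, ← abs_mul]; exact le_abs_self _
    have e5 : 0 ≤ (|l| ^ q - |m| ^ q) * (|l| ^ (2 * n - q) - |m| ^ (2 * n - q)) := by
      rcases le_total |l| |m| with h | h
      · apply mul_nonneg_of_nonpos_of_nonpos
        · exact sub_nonpos.2 (pow_le_pow_left₀ (abs_nonneg _) h _)
        · exact sub_nonpos.2 (pow_le_pow_left₀ (abs_nonneg _) h _)
      · apply mul_nonneg
        · exact sub_nonneg.2 (pow_le_pow_left₀ (abs_nonneg _) h _)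
        · exact sub_nonneg.2 (pow_le_pow_left₀ (abs_nonneg _) h _)
    nlinarith
  have h3 := Finset.sum_le_sum h2
  rw [Finset.sum_add_distrib, ← h1, Finset.sum_const, Finset.card_range, nsmul_eq_mul] at h3
  linarith

theorem nckm_trace {k : ℕ} (H W Y : Matrix (Fin k) (Fin k) ℂ) (hH : H.IsHermitian)
    (hW : W.IsHermitian) (hY : Y.IsHermitian) (n : ℕ) :
    ∑ q ∈ Finset.range (2 * n + 1), (H * W ^ q * H * Y ^ (2 * n - q)).trace.re ≤
      ((2 * n + 1 : ℕ) : ℝ) / 2 *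
        ((H * H * W ^ (2 * n)).trace.re + (H * H * Y ^ (2 * n)).trace.re) := by
  obtain ⟨l, m, w, hw, hlm⟩ := nckm_HH H W Y hH hW hY
  have e1 : (H * H * W ^ (2 * n)).trace.re = ∑ i, ∑ j, l i ^ (2 * n) * w i j := by
    have h1 : (H * H * W ^ (2 * n)).trace = (H * W ^ (2 * n) * H * Y ^ 0).trace := by
      rw [pow_zero, mul_one, mul_assoc, Matrix.trace_mul_comm]
    rw [h1, hlm]
    refine Finset.sum_congr rfl fun i _ => Finset.sum_congr rfl fun j _ => ?_
    rw [pow_zero, mul_one]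
  have e2 : (H * H * Y ^ (2 * n)).trace.re = ∑ i, ∑ j, m j ^ (2 * n) * w i j := by
    have h1 : (H * H * Y ^ (2 * n)).trace = (H * W ^ 0 * H * Y ^ (2 * n)).trace := by
      rw [pow_zero, mul_one]
    rw [h1, hlm]
    refine Finset.sum_congr rfl fun i _ => Finset.sum_congr rfl fun j _ => ?_
    rw [pow_zero, one_mul]
  rw [e1, e2, ← Finset.sum_add_distrib, Finset.mul_sum]
  simp only [hlm]
  rw [Finset.sum_comm]
  refine Finset.sum_le_sum fun i _ => ?_
  rw [← Finset.sum_add_distrib, Finset.mul_sum, Finset.sum_comm]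
  refine Finset.sum_le_sum fun j _ => ?_
  rw [← Finset.sum_mul, ← add_mul, ← mul_assoc]
  exact mul_le_mul_of_nonneg_right (nckm_scalar _ _ _) (hw i j)

theorem nckm_tele {R : Type} [Ring R] (A B : R) (n : ℕ) :
    A ^ n - B ^ n = ∑ q ∈ Finset.range n, A ^ q * (A - B) * B ^ (n - 1 - q) := by
  induction n with
  | zero => simp
  | succ n ih =>
    rw [Finset.sum_range_succ]
    have h1 : ∑ q ∈ Finset.range n, A ^ q * (A - B) * B ^ (n + 1 - 1 - q) =
        (∑ q ∈ Finset.range n, A ^ q * (A - B) * B ^ (n - 1 - q)) * B := by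
      rw [Finset.sum_mul]
      refine Finset.sum_congr rfl fun q hq => ?_
      rw [Finset.mem_range] at hq
      rw [mul_assoc _ _ B, ← pow_succ]
      congr 2
      omega
    rw [h1, ← ih]
    have h2 : n + 1 - 1 - n = 0 := by omega
    rw [h2, pow_zero, mul_one, pow_succ, pow_succ]
    noncomm_ring

/-- the sign -/
def nckm_c (b : Bool) : ℂ := if b then 1 else -1

theorem nckm_c_sq (b : Bool) : nckm_c b * nckm_c b = 1 := by
  cases b <;> simp [nckm_c]

theorem nckm_c_not (b : Bool) : nckm_c (!b) = -nckm_c b := by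
  cases b <;> simp [nckm_c]

theorem nckm_c_re (b : Bool) : ∃ r : ℝ, nckm_c b = (r : ℂ) ∧ r * r = 1 := by
  cases b
  · exact ⟨-1, by simp [nckm_c], by norm_num⟩
  · exact ⟨1, by simp [nckm_c], by norm_num⟩

/-- the sum -/
noncomputable def nckm_S {k m : ℕ} (X : Fin m → Matrix (Fin k) (Fin k) ℂ) (e : Fin m → Bool) :
    Matrix (Fin k) (Fin k) ℂ := ∑ j, nckm_c (e j) • X j

theorem nckm_S_herm {k m : ℕ} (X : Fin m → Matrix (Fin k) (Fin k) ℂ)
    (hX : ∀ j, (X j).IsHermitian) (e : Fin m → Bool) : (nckm_S X e).IsHermitian := by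
  unfold Matrix.IsHermitian nckm_S
  rw [Matrix.conjTranspose_sum]
  refine Finset.sum_congr rfl fun j _ => ?_
  obtain ⟨r, hr, -⟩ := nckm_c_re (e j)
  rw [Matrix.conjTranspose_smul, (hX j).eq, hr]
  simp

/-- the flip -/
def nckm_flip {m : ℕ} (j : Fin m) (e : Fin m → Bool) : Fin m → Bool := Function.update e j (!(e j))

theorem nckm_flip_flip {m : ℕ} (j : Fin m) : Function.Involutive (nckm_flip j) := by
  intro e
  unfold nckm_flip
  funext i
  by_cases h : i = j
  · subst h; simp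
  · simp [h]

theorem nckm_flip_S {k m : ℕ} (X : Fin m → Matrix (Fin k) (Fin k) ℂ) (j : Fin m)
    (e : Fin m → Bool) : nckm_S X e - nckm_S X (nckm_flip j e) = (2 * nckm_c (e j)) • X j := by
  unfold nckm_S
  rw [← Finset.sum_sub_distrib, Finset.sum_eq_single j]
  · unfold nckm_flip
    rw [Function.update_self, nckm_c_not, ← sub_smul]
    congr 1
    ring
  · intro i _ hi
    unfold nckm_flip
    rw [Function.update_of_ne hi, sub_self]
  · intro h
    exact absurd (Finset.mem_univ j) h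

theorem nckm_flip_sum {m : ℕ} (j : Fin m) (F : (Fin m → Bool) → ℝ) :
    ∑ e, F (nckm_flip j e) = ∑ e, F e :=
  Equiv.sum_comp (nckm_flip_flip j).toPerm F

/-- the moments -/
noncomputable def nckm_M {k m : ℕ} (X : Fin m → Matrix (Fin k) (Fin k) ℂ) (p : ℕ) : ℝ :=
  ∑ e : Fin m → Bool, ((nckm_S X e) ^ (2 * p)).trace.re

theorem nckm_pair {k m : ℕ} (X : Fin m → Matrix (Fin k) (Fin k) ℂ)
    (hX : ∀ j, (X j).IsHermitian) (n : ℕ) (j : Fin m) (e : Fin m → Bool) :
    (nckm_c (e j) * ((X j) * (nckm_S X e) ^ (2 * n + 1)).trace).re +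
      (nckm_c (nckm_flip j e j) * ((X j) * (nckm_S X (nckm_flip j e)) ^ (2 * n + 1)).trace).re ≤
      ((2 * n + 1 : ℕ) : ℝ) * ((X j * X j * (nckm_S X e) ^ (2 * n)).trace.re +
        (X j * X j * (nckm_S X (nckm_flip j e)) ^ (2 * n)).trace.re) := by
  have h1 : nckm_c (nckm_flip j e j) = -nckm_c (e j) := by
    unfold nckm_flip
    rw [Function.update_self, nckm_c_not]
  have h2 : nckm_c (e j) * ((X j) * (nckm_S X e) ^ (2 * n + 1)).trace +
      nckm_c (nckm_flip j e j) * ((X j) * (nckm_S X (nckm_flip j e)) ^ (2 * n + 1)).trace =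
      ∑ q ∈ Finset.range (2 * n + 1), 2 * (X j * (nckm_S X e) ^ q * X j *
        (nckm_S X (nckm_flip j e)) ^ (2 * n - q)).trace := by
    rw [h1, neg_mul, ← sub_eq_add_neg, ← mul_sub, ← Matrix.trace_sub, ← mul_sub, nckm_tele,
      nckm_flip_S, Finset.mul_sum, Matrix.trace_sum, Finset.mul_sum]
    refine Finset.sum_congr rfl fun q _ => ?_
    rw [Matrix.mul_smul, Matrix.smul_mul, Matrix.mul_smul, Matrix.trace_smul, smul_eq_mul,
      ← mul_assoc (nckm_c (e j)), show nckm_c (e j) * (2 * nckm_c (e j)) =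
        2 * (nckm_c (e j) * nckm_c (e j)) by ring, nckm_c_sq, mul_one]
    congr 2
    simp only [mul_assoc]
    rfl
  rw [← Complex.add_re, h2, Complex.re_sum]
  have h3 := nckm_trace (X j) _ _ (hX j) (nckm_S_herm X hX e) (nckm_S_herm X hX (nckm_flip j e)) n
  have h4 : ∀ q ∈ Finset.range (2 * n + 1), (2 * (X j * (nckm_S X e) ^ q * X j *
        (nckm_S X (nckm_flip j e)) ^ (2 * n - q)).trace).re =
        2 * (X j * (nckm_S X e) ^ q * X j *
        (nckm_S X (nckm_flip j e)) ^ (2 * n - q)).trace.re := by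
    intro q _
    simp
  rw [Finset.sum_congr rfl h4, ← Finset.mul_sum]
  linarith

theorem nckm_psd {k : ℕ} (H S : Matrix (Fin k) (Fin k) ℂ)
    (hH : ((1 : Matrix (Fin k) (Fin k) ℂ) - H * H).PosSemidef) (hS : S.IsHermitian) (n : ℕ) :
    (H * H * S ^ (2 * n)).trace.re ≤ (S ^ (2 * n)).trace.re := by
  have h1 := hH.mul_mul_conjTranspose_same (S ^ n)
  have h2 : (S ^ n).conjTranspose = S ^ n := (hS.pow n).eq
  rw [h2] at h1
  have h3 := h1.trace_nonneg
  have h4 : (S ^ n * (1 - H * H) * S ^ n).trace = (S ^ (2 * n)).trace -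
      (H * H * S ^ (2 * n)).trace := by
    rw [Matrix.trace_mul_comm, ← mul_assoc, ← pow_add, mul_sub, mul_one, Matrix.trace_sub,
      ← two_mul, Matrix.trace_mul_comm (S ^ (2 * n))]
  rw [h4] at h3
  have h5 := (Complex.le_def.1 h3).1
  rw [Complex.sub_re, Complex.zero_re] at h5
  linarith

theorem nckm_step {k m : ℕ} (X : Fin m → Matrix (Fin k) (Fin k) ℂ)
    (hX : ∀ j, (X j).IsHermitian)
    (hX1 : ∀ j, ((1 : Matrix (Fin k) (Fin k) ℂ) - X j * X j).PosSemidef) (n : ℕ) :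
    nckm_M X (n + 1) ≤ ((2 * n + 1 : ℕ) : ℝ) * m * nckm_M X n := by
  have h1 : ∀ e, ((nckm_S X e) ^ (2 * (n + 1))).trace.re =
      ∑ j, (nckm_c (e j) * ((X j) * (nckm_S X e) ^ (2 * n + 1)).trace).re := by
    intro e
    rw [show 2 * (n + 1) = (2 * n + 1) + 1 by ring, pow_succ' (nckm_S X e) (2 * n + 1)]
    conv_lhs => rw [nckm_S, Finset.sum_mul, Matrix.trace_sum, Complex.re_sum]
    refine Finset.sum_congr rfl fun j _ => ?_
    rw [Matrix.smul_mul, Matrix.trace_smul, smul_eq_mul]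
    rfl
  have h2 : nckm_M X (n + 1) = ∑ j, ∑ e : Fin m → Bool,
      (nckm_c (e j) * ((X j) * (nckm_S X e) ^ (2 * n + 1)).trace).re := by
    unfold nckm_M
    rw [Finset.sum_congr rfl fun e _ => h1 e, Finset.sum_comm]
  have h3 : ∀ j : Fin m, ∑ e : Fin m → Bool,
      (nckm_c (e j) * ((X j) * (nckm_S X e) ^ (2 * n + 1)).trace).re ≤
      ((2 * n + 1 : ℕ) : ℝ) * nckm_M X n := by
    intro j
    have a1 := Finset.sum_le_sum fun e (_ : e ∈ (Finset.univ : Finset (Fin m → Bool))) =>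
      nckm_pair X hX n j e
    rw [Finset.sum_add_distrib,
      nckm_flip_sum j (fun e => (nckm_c (e j) * ((X j) * (nckm_S X e) ^ (2 * n + 1)).trace).re),
      ← Finset.mul_sum, Finset.sum_add_distrib,
      nckm_flip_sum j (fun e => (X j * X j * (nckm_S X e) ^ (2 * n)).trace.re)] at a1
    have a2 : ∑ e : Fin m → Bool, (X j * X j * (nckm_S X e) ^ (2 * n)).trace.re ≤ nckm_M X n :=
      Finset.sum_le_sum fun e _ => nckm_psd _ _ (hX1 j) (nckm_S_herm X hX e) n
    have a3 : ((2 * n + 1 : ℕ) : ℝ) *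
        (∑ e : Fin m → Bool, (X j * X j * (nckm_S X e) ^ (2 * n)).trace.re) ≤
        ((2 * n + 1 : ℕ) : ℝ) * nckm_M X n :=
      mul_le_mul_of_nonneg_left a2 (Nat.cast_nonneg _)
    rw [mul_add] at a1
    linarith
  rw [h2]
  calc _ ≤ ∑ _j : Fin m, ((2 * n + 1 : ℕ) : ℝ) * nckm_M X n := Finset.sum_le_sum fun j _ => h3 j
    _ = _ := by
      rw [Finset.sum_const, Finset.card_univ, Fintype.card_fin, nsmul_eq_mul]
      ring

theorem st_NCKM : ST_NCKM := by
  intro k m p X hX hX1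
  have h0 : (∑ e : Fin m → Bool, ((∑ j, (if e j then (1 : ℂ) else -1) • X j) ^ (2 * p)).trace).re =
      nckm_M X p := by
    rw [Complex.re_sum]
    rfl
  rw [h0]
  have key : ∀ q : ℕ, q ≤ p → nckm_M X q ≤ (2 : ℝ) ^ m * ((2 * p * m : ℕ) : ℝ) ^ q * k := by
    intro q
    induction q with
    | zero =>
      intro _
      unfold nckm_M
      simp
    | succ q ih =>
      intro hq
      have h1 := ih (by omega)
      refine (nckm_step X hX hX1 q).trans ?_
      have h2 : ((2 * q + 1 : ℕ) : ℝ) * m ≤ ((2 * p * m : ℕ) : ℝ) := by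
        rw [← Nat.cast_mul]
        apply Nat.cast_le.2
        apply Nat.mul_le_mul_right
        omega
      have h3 : 0 ≤ (2 : ℝ) ^ m * ((2 * p * m : ℕ) : ℝ) ^ q * k := by positivity
      calc ((2 * q + 1 : ℕ) : ℝ) * m * nckm_M X q
          ≤ ((2 * q + 1 : ℕ) : ℝ) * m * ((2 : ℝ) ^ m * ((2 * p * m : ℕ) : ℝ) ^ q * k) :=
            mul_le_mul_of_nonneg_left h1 (by positivity)
        _ ≤ ((2 * p * m : ℕ) : ℝ) * ((2 : ℝ) ^ m * ((2 * p * m : ℕ) : ℝ) ^ q * k) :=
            mul_le_mul_of_nonneg_right h2 h3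
        _ = _ := by rw [pow_succ]; ring
  exact key p le_rfl

end Pool.Agent.Helper40.Nil
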